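import Pool.Agent.Arm55.Rad

/-!
A lower bound for the extrinsic one-arm probability in terms of the intrinsic distance to the
boundary of the box, for critical Bernoulli bond percolation on `ℤ^d`, in every dimension.
-/

set_option autoImplicit false
set_option linter.deprecated false

open Finset MeasureTheory Filter Topology
open scoped NNReal ENNReal

namespace Pool.Agent.Results.MP_ed4b48_pr.ArmChemicalDistance

open Pool.Agent.FPP38 Pool.Agent.Arm55

variable {d : ℕ}

/-- the sup-norm sphere of radius `n` -/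
def bdry (d n : ℕ) : Set (Fin d → ℤ) := {y | (∀ i, |y i| ≤ (n : ℤ)) ∧ ∃ i, |y i| = (n : ℤ)}

theorem mem_bdry {n : ℕ} {y : Fin d → ℤ} : y ∈ bdry d n ↔ y ∈ sph (0 : Fin d → ℤ) n := by
  rw [mem_sph, bdry]
  simp

/-- the origin is connected to the sphere -/
def armEvent (d n : ℕ) : Set (Sym2 (Fin d → ℤ) → Bool) :=
  {ω | ∃ y ∈ bdry d n, (openGraph ω).Reachable 0 y}

/-- the critical extrinsic one-arm probability -/
noncomputable def piEx (d n : ℕ) : ℝ :=
  (PB (Fin d → ℤ) (pc d) (pc_le_one d) (armEvent d n)).toReal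

/-- the intrinsic distance from the origin to the sphere; it is `0` when there is no connection -/
noncomputable def distBdry (d n : ℕ) (ω : Sym2 (Fin d → ℤ) → Bool) : ℕ :=
  sInf {k : ℕ | ∃ y ∈ bdry d n, ∃ w : (openGraph ω).Walk 0 y, w.length = k}

theorem rch_walk {n : ℕ} {ω : Sym2 (Fin d → ℤ) → Bool} {v : Fin d → ℤ}
    (h : Rch (opn (EB 0 n) ω) {0} v) : ∃ m, RL (fun e => ω e = true) m v := by
  obtain ⟨m, hm⟩ := rch_RL (fun x y h => lat_EB _ _ x y (mem_opn.1 h).1) h
  exact ⟨m, hm.mono fun e he => (mem_opn.1 he).2⟩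

theorem xarm_of_RL {n m : ℕ} {ω : Sym2 (Fin d → ℤ) → Bool} {y : Fin d → ℤ}
    (h : RL (fun e => ω e = true) m y) (hy : y ∈ sph (0 : Fin d → ℤ) n) :
    Xarm d n (opn (EB 0 n) ω) := by
  rcases h.exit (N := n) with h | h
  · exact ⟨y, mem_coe.2 hy, h.2⟩
  · exact h

theorem armEvent_iff {n : ℕ} {ω : Sym2 (Fin d → ℤ) → Bool} :
    ω ∈ armEvent d n ↔ Xarm d n (opn (EB 0 n) ω) := by
  constructor
  · rintro ⟨y, hy, ⟨w⟩⟩
    exact xarm_of_RL (walk_RL.2 ⟨w, rfl⟩) (mem_bdry.1 hy)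
  · rintro ⟨v, hv, hr⟩
    obtain ⟨m, hm⟩ := rch_walk hr
    obtain ⟨w, _⟩ := walk_RL.1 hm
    exact ⟨v, mem_bdry.2 (mem_coe.1 hv), ⟨w⟩⟩

theorem piEx_eq (d n : ℕ) : piEx d n = arm (pc d) d n := by
  have h1 : ((pc d : ℝ≥0) : ℝ) ≤ 1 := by exact_mod_cast pc_le_one d
  have : armEvent d n = {ω | Xarm d n (opn (EB 0 n) ω)} := by
    ext ω
    exact armEvent_iff
  rw [piEx, this, measure_event (pc_le_one d) (EB 0 n) (Xarm d n),
    ENNReal.toReal_ofReal (Pr_nonneg (pc d).coe_nonneg h1 _ _)]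
  rfl

/-- the open pivotal edges lie on every path to the sphere -/
theorem pivotal_card (n : ℕ) (ω : Sym2 (Fin d → ℤ) → Bool)
    (P : Finset (Sym2 (Fin d → ℤ)))
    (hP : ∀ e ∈ P, Xarm d n (opn (EB 0 n) ω) ∧ ¬ Xarm d n ((opn (EB 0 n) ω).erase e)) :
    P.card ≤ distBdry d n ω := by
  classical
  rcases P.eq_empty_or_nonempty with rfl | ⟨e0, he0⟩
  · simp
  · obtain ⟨v, hv, hr⟩ := (hP e0 he0).1
    obtain ⟨m, hm⟩ := rch_walk hr
    obtain ⟨w0, hw0⟩ := walk_RL.1 hm
    have hne : {k : ℕ | ∃ y ∈ bdry d n, ∃ w : (openGraph ω).Walk 0 y, w.length = k}.Nonempty :=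
      ⟨m, v, mem_bdry.2 (mem_coe.1 hv), w0, hw0⟩
    obtain ⟨y, hy, w, hw⟩ := Nat.sInf_mem hne
    have hRL : RL (fun e => ω e = true) (distBdry d n ω) y := walk_RL.2 ⟨w, hw⟩
    obtain ⟨F, h1, h2, h3⟩ := hRL.fin
    refine (card_le_card fun e he => ?_).trans h1
    by_contra hF
    refine (hP e he).2 ?_
    set ω' : Sym2 (Fin d → ℤ) → Bool := fun f => if f = e then false else ω f with hω'
    have h4 : RL (fun f => ω' f = true) (distBdry d n ω) y := by
      refine h3.mono fun f hf => ?_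
      have hne : f ≠ e := fun h => hF (h ▸ hf)
      simp only [hω', if_neg hne]
      exact h2 f hf
    have h5 := xarm_of_RL (n := n) h4 (mem_bdry.1 hy)
    have h6 : opn (EB (0 : Fin d → ℤ) n) ω' = (opn (EB 0 n) ω).erase e := by
      ext f
      rw [mem_opn, mem_erase, mem_opn, hω']
      by_cases hf : f = e <;> simp [hf]
    rwa [h6] at h5

theorem Pr_sub {p : ℝ} {A : Finset (Sym2 (Fin d → ℤ))} {e : Sym2 (Fin d → ℤ)} (he : e ∈ A)
    (n : ℕ) : p * (Pr p A (fun O => Xarm d n (insert e O)) - Pr p A (fun O => Xarm d n (O.erase e))) =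
      Pr p A (fun O => e ∈ O ∧ Xarm d n O ∧ ¬ Xarm d n (O.erase e)) := by
  classical
  have e1 : Pr p A (fun O => Xarm d n (insert e O)) =
      Pr p (A.erase e) (fun O => Xarm d n (insert e O)) := by
    rw [Pr_erase he]
    have : Pr p (A.erase e) (fun O => Xarm d n (insert e (insert e O))) =
        Pr p (A.erase e) (fun O => Xarm d n (insert e O)) :=
      Pr_congr fun O _ => by rw [insert_idem]
    rw [this]; ring
  have e2 : Pr p A (fun O => Xarm d n (O.erase e)) = Pr p (A.erase e) (Xarm d n) := by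
    rw [Pr_erase he]
    have g1 : Pr p (A.erase e) (fun O => Xarm d n ((insert e O).erase e)) =
        Pr p (A.erase e) (Xarm d n) :=
      Pr_congr fun O hO => by rw [erase_insert (fun h => (notMem_erase _ _) (hO h))]
    have g2 : Pr p (A.erase e) (fun O => Xarm d n (O.erase e)) = Pr p (A.erase e) (Xarm d n) :=
      Pr_congr fun O hO => by rw [erase_eq_of_notMem (fun h => (notMem_erase _ _) (hO h))]
    rw [g1, g2]; ring
  have e3 : Pr p A (fun O => e ∈ O ∧ Xarm d n O ∧ ¬ Xarm d n (O.erase e)) =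
      p * Pr p (A.erase e) (fun O => Xarm d n (insert e O) ∧ ¬ Xarm d n O) := by
    rw [Pr_erase he]
    have g1 : Pr p (A.erase e) (fun O => e ∈ insert e O ∧ Xarm d n (insert e O) ∧
        ¬ Xarm d n ((insert e O).erase e)) =
        Pr p (A.erase e) (fun O => Xarm d n (insert e O) ∧ ¬ Xarm d n O) := by
      refine Pr_congr fun O hO => ?_
      rw [erase_insert (fun h => (notMem_erase _ _) (hO h))]
      exact ⟨fun h => h.2, fun h => ⟨mem_insert_self _ _, h⟩⟩
    have g2 : Pr p (A.erase e) (fun O => e ∈ O ∧ Xarm d n O ∧ ¬ Xarm d n (O.erase e)) = 0 := by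
      rw [← Pr_false p (A.erase e)]
      exact Pr_congr fun O hO => ⟨fun h => (notMem_erase _ _) (hO h.1), fun h => h.elim⟩
    rw [g1, g2]; ring
  rw [e1, e2, e3]
  congr 1
  unfold Pr
  rw [← sum_sub_distrib]
  refine sum_congr rfl fun O _ => ?_
  rw [← mul_sub]
  congr 1
  by_cases hX : Xarm d n O
  · have : Xarm d n (insert e O) := by
      obtain ⟨v, hv, hr⟩ := hX
      exact ⟨v, hv, hr.mono (subset_insert _ _) (Subset.refl _)⟩
    rw [if_pos this, if_pos hX, if_neg (fun h => h.2 hX)]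
    norm_num
  · by_cases hY : Xarm d n (insert e O)
    · rw [if_pos hY, if_neg hX, if_pos ⟨hY, hX⟩]; norm_num
    · rw [if_neg hY, if_neg hX, if_neg (fun h => hY h.1)]; norm_num

theorem one_le_phi_pc (hlt : pc d < 1) {n : ℕ} {S : Finset (Fin d → ℤ)} (hS : S ⊆ box 0 n)
    (hS0 : 0 ∈ S) : 1 ≤ phi (pc d) S := by
  have hcont : ContinuousAt (fun q : ℝ≥0 => phi (q : ℝ) S) (pc d) :=
    ((continuous_phi S).comp NNReal.continuous_coe).continuousAt
  refine ge_of_tendsto (hcont.tendsto.mono_left (nhdsWithin_le_nhds (s := Set.Ioi (pc d)))) ?_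
  filter_upwards [Ioo_mem_nhdsGT hlt] with q hq
  exact one_le_phi hq.1 hq.2.le hS hS0

/-- the expected number of open pivotal edges -/
theorem pivotal_lower (hlt : pc d < 1) (n : ℕ) :
    (1 - piEx d n) / (1 - pc d) ≤ ∑ e ∈ EB (0 : Fin d → ℤ) n, Pr (pc d) (EB 0 n)
      (fun O => e ∈ O ∧ Xarm d n O ∧ ¬ Xarm d n (O.erase e)) := by
  have h1 : ((pc d : ℝ≥0) : ℝ) < 1 := by exact_mod_cast hlt
  have h2 : (0 : ℝ) < 1 - pc d := by linarith
  have h := dct (d := d) (N := n) (pc d).coe_nonneg h1.le fun S hS hS0 => one_le_phi_pc hlt hS hS0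
  rw [div_le_iff₀ h2, piEx_eq]
  refine h.trans (le_of_eq ?_)
  rw [← sum_congr rfl fun e he => Pr_sub he n, ← mul_sum]
  ring

/-- At the critical point of Bernoulli bond percolation on `ℤ^d`, the expected intrinsic distance
from the origin to the boundary of the box of radius `n` (counted as `0` when the origin is not
connected to it) is at least `(1 - π_ex(n)) / (1 - p_c)` (when `p_c = 1` this says nothing, the
quotient being `0` by convention). -/
theorem result (d n : ℕ) :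
    ENNReal.ofReal ((1 - piEx d n) / (1 - pc d)) ≤
      ∫⁻ ω, (distBdry d n ω : ℝ≥0∞) ∂(PB (Fin d → ℤ) (pc d) (pc_le_one d)) := by
  classical
  rcases (pc_le_one d).lt_or_eq with hd | hd
  swap
  · have : (1 : ℝ) - pc d = 0 := by rw [hd]; simp
    rw [this, div_zero, ENNReal.ofReal_zero]
    exact zero_le
  have h1 : ((pc d : ℝ≥0) : ℝ) ≤ 1 := by exact_mod_cast pc_le_one d
  refine (ENNReal.ofReal_le_ofReal (pivotal_lower hd n)).trans ?_
  rw [ENNReal.ofReal_sum_of_nonneg fun e _ => Pr_nonneg (pc d).coe_nonneg h1 _ _]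
  set X : Sym2 (Fin d → ℤ) → Finset (Sym2 (Fin d → ℤ)) → Prop := fun e O =>
    e ∈ O ∧ Xarm d n O ∧ ¬ Xarm d n (O.erase e) with hX
  have h2 : ∀ e ∈ EB (0 : Fin d → ℤ) n, ENNReal.ofReal (Pr (pc d) (EB 0 n) (X e)) =
      ∫⁻ ω, Set.indicator {ω | X e (opn (EB 0 n) ω)} 1 ω ∂(PB (Fin d → ℤ) (pc d) (pc_le_one d)) := by
    intro e _
    rw [lintegral_indicator_one (measurable_event _ _), measure_event (pc_le_one d)]
  rw [sum_congr rfl h2, ← lintegral_finsetSum]
  · refine lintegral_mono fun ω => ?_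
    have h3 : ∑ e ∈ EB (0 : Fin d → ℤ) n, Set.indicator {ω | X e (opn (EB 0 n) ω)} 1 ω =
        (((EB (0 : Fin d → ℤ) n).filter fun e => X e (opn (EB 0 n) ω)).card : ℝ≥0∞) := by
      rw [card_filter]
      push_cast
      refine sum_congr rfl fun e _ => ?_
      simp [Set.indicator_apply]
    rw [h3]
    have h4 := pivotal_card n ω ((EB (0 : Fin d → ℤ) n).filter fun e => X e (opn (EB 0 n) ω))
      fun e he => (mem_filter.1 he).2.2
    exact Nat.cast_le.2 h4
  · intro e _
    exact measurable_one.indicator (measurable_event _ _)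

end Pool.Agent.Results.MP_ed4b48_pr.ArmChemicalDistance
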