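import Pool.Agent.Arm55.Two

/-!
The intrinsic one-arm probability of critical Bernoulli bond percolation on `ℤ^d` is at least that of
critical percolation on a regular tree with the same critical point, in every dimension.
-/

set_option autoImplicit false
set_option linter.deprecated false

open Finset MeasureTheory Filter Topology
open scoped NNReal ENNReal

namespace Pool.Agent.Results.MP_ed4b48_pr.BranchingComparison

open Pool.Agent.FPP38 Pool.Agent.Arm55

/-- the critical intrinsic one-arm probability -/
noncomputable def piIn (d n : ℕ) : ℝ := armIn (pc d) (pc_le_one d) d n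

theorem piIn_nonneg (d n : ℕ) : 0 ≤ piIn d n := ENNReal.toReal_nonneg

/-- the comparison for all parameters -/
theorem compare {d : ℕ} (hd : 0 < d) {p : ℝ≥0} (hp0 : 0 < p) (hp1 : p ≤ 1) (n : ℕ) :
    tsurv p (max p (pc d) : ℝ≥0) n ≤ armIn p hp1 d n := by
  rcases le_total p (pc d) with h | h
  · rw [max_eq_right h]
    exact tsurv_le_armIn hd hp0 h hp1 n
  · rw [max_eq_left h, tsurv_self]
    exact surv_le_armIn hd h hp1 n

/-- Bernoulli bond percolation on `ℤ^d`, `d ≥ 1`. Let `tsurv p c 0 = 1` and
`tsurv p c (n + 1) = 1 - (1 - p * tsurv p c n) ^ (1 / c)`; for `c = 1 / b` this is the probability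
that percolation with parameter `p` on the tree in which every vertex has `b` children, whose
critical point is `c`, reaches generation `n`.
(1) For every `p` with `0 < p ≤ 1` and every `n`, the probability at `p` that the intrinsic radius
of the cluster of the origin is at least `n` is at least `tsurv p c n`, `c = max p p_c`; so `c = p_c`
if `p ≤ p_c`.
(2) At `p_c` it is at least `1 / (1 + (1 - p_c) * n)`.
(3) At `p_c`, `liminf n * piIn n ≥ 2 / (1 - p_c)`, if `p_c < 1`. -/
theorem result (d : ℕ) (hd : 0 < d) :
    (∀ (p : ℝ≥0) (hp : p ≤ 1), 0 < p → ∀ n : ℕ,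
      tsurv p (max p (pc d) : ℝ≥0) n ≤ armIn p hp d n) ∧
    (∀ n : ℕ, 1 / (1 + (1 - pc d) * n) ≤ piIn d n) ∧
    (pc d < 1 → ∀ c : ℝ, c < 2 / (1 - pc d) → ∀ᶠ n : ℕ in atTop, c ≤ n * piIn d n) :=
  ⟨fun _ hp h n => compare hd h hp n, fun n => armIn_explicit hd le_rfl (pc_le_one d) n,
    fun h1 _ hc => armIn_liminf hd h1 hc⟩

end Pool.Agent.Results.MP_ed4b48_pr.BranchingComparison
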