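import Pool.Agent.Arm55.Esd

/-!
A universal lower bound for the probability that the critical cluster of the origin leaves a finite
set, and in particular for the extrinsic one-arm probability, by the mean cluster size in the set.
-/

set_option autoImplicit false
set_option linter.deprecated false

open Finset MeasureTheory Filter Topology
open scoped NNReal ENNReal

namespace Pool.Agent.Results.MP_ed4b48_pr.EscapeProbability

open Pool.Agent.FPP38 Pool.Agent.Arm55

variable {d : ℕ}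

/-- `v` is joined to the origin by an open path with all its vertices in `Λ` -/
def insideEvent (Λ : Finset (Fin d → ℤ)) (v : Fin d → ℤ) : Set (Sym2 (Fin d → ℤ) → Bool) :=
  {ω | ∃ w : (openGraph ω).Walk 0 v, ∀ x ∈ w.support, x ∈ Λ}

/-- the mean number of vertices of the cluster of the origin in `Λ` -/
noncomputable def meanSize (q : ℝ≥0) (hq : q ≤ 1) (Λ : Finset (Fin d → ℤ)) : ℝ :=
  ∑ v ∈ Λ, (PB (Fin d → ℤ) q hq (insideEvent Λ v)).toReal

theorem ins_walk {Λ : Finset (Fin d → ℤ)} (h0 : 0 ∈ Λ) {m : ℕ} {ω : Sym2 (Fin d → ℤ) → Bool}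
    {v : Fin d → ℤ} (h : Rch (insd Λ (opn (EB 0 m) ω)) {0} v) :
    ∃ w : (openGraph ω).Walk 0 v, ∀ x ∈ w.support, x ∈ Λ := by
  induction h with
  | base h =>
    rw [mem_singleton] at h
    subst h
    exact ⟨SimpleGraph.Walk.nil, by simpa using h0⟩
  | @step u v _ hs ih =>
    obtain ⟨w, hw⟩ := ih
    rw [mem_insd] at hs
    have hadj : (openGraph ω).Adj u v := ⟨lat_EB _ _ u v (mem_opn.1 hs.1).1, (mem_opn.1 hs.1).2⟩
    refine ⟨w.concat hadj, fun x hx => ?_⟩
    rw [SimpleGraph.Walk.support_concat, List.mem_append, List.mem_singleton] at hx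
    rcases hx with hx | rfl
    · exact hw x hx
    · exact hs.2 _ (Sym2.mem_mk_right u x)

theorem KK_le {q : ℝ≥0} (hq : q ≤ 1) {m : ℕ} {Λ : Finset (Fin d → ℤ)} (h0 : 0 ∈ Λ) :
    KK q m Λ ≤ meanSize q hq Λ := by
  refine sum_le_sum fun v _ => ?_
  have h1 := measure_event hq (EB (0 : Fin d → ℤ) m) (Xins Λ v)
  have h2 : PB (Fin d → ℤ) q hq {ω | Xins Λ v (opn (EB 0 m) ω)} ≤
      PB (Fin d → ℤ) q hq (insideEvent Λ v) := by
    refine measure_mono ?_
    intro ω h
    exact ins_walk h0 h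
  rw [h1] at h2
  have h3 : PB (Fin d → ℤ) q hq (insideEvent Λ v) ≠ ⊤ := measure_ne_top _ _
  exact (ENNReal.ofReal_le_iff_le_toReal h3).1 h2

theorem esc_bound (hd : 0 < d) {q : ℝ≥0} (hq : q ≤ 1) (hpq : pc d ≤ q) {Λ : Finset (Fin d → ℤ)}
    (h0 : 0 ∈ Λ) : 1 ≤ escProb q hq Λ * (1 + (1 - q) * meanSize q hq Λ) := by
  obtain ⟨m, hm⟩ := exists_box Λ
  have h1 : (q : ℝ) ≤ 1 := by exact_mod_cast hq
  have h2 := esc_main hd hpq hq hm
  have h3 := esc_le hq (m := m) Λ
  have h4 := KK_le hq (m := m) h0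
  have h5 : 0 ≤ 1 - (q : ℝ) := sub_nonneg.2 h1
  have h6 : 1 + (1 - (q : ℝ)) * KK q m Λ ≤ 1 + (1 - q) * meanSize q hq Λ := by
    linarith [mul_le_mul_of_nonneg_left h4 h5]
  have h7 : 0 ≤ 1 + (1 - (q : ℝ)) * KK q m Λ := by
    have := mul_nonneg h5 (KK_nonneg (Λ := Λ) q.coe_nonneg h1 m)
    linarith
  exact h2.trans (mul_le_mul h3 h6 h7 ENNReal.toReal_nonneg)

/-- Bernoulli bond percolation on `ℤ^d`, `d ≥ 1`.
(1) For `p_c ≤ q ≤ 1` and every finite set `Λ` that contains the origin, the probability that the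
cluster of the origin leaves `Λ` is at least `1 / (1 + (1 - q) * E|C_Λ|)`, where `C_Λ` is the set of
the vertices joined to the origin by an open path in `Λ`.
(2) At `p_c` the origin is joined to the boundary of the box of radius `n + 1` with probability at
least `1 / (1 + (1 - p_c) * E|C_Λ|)`, with `Λ` the box of radius `n`. -/
theorem result (d : ℕ) (hd : 0 < d) :
    (∀ (q : ℝ≥0) (hq : q ≤ 1), pc d ≤ q → ∀ Λ : Finset (Fin d → ℤ), 0 ∈ Λ →
      1 ≤ escProb q hq Λ * (1 + (1 - q) * meanSize q hq Λ)) ∧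
    (∀ n : ℕ, 1 ≤ armEx (pc d) (pc_le_one d) d (n + 1) *
      (1 + (1 - pc d) * meanSize (pc d) (pc_le_one d) (boxN d n))) := by
  refine ⟨fun q hq hpq Λ h0 => esc_bound hd hq hpq h0, fun n => ?_⟩
  have h0 : (0 : Fin d → ℤ) ∈ boxN d n := by
    rw [boxN_eq]
    exact self_mem_box _ _
  have h1 := esc_bound hd (pc_le_one d) le_rfl h0
  have h2 : escProb (pc d) (pc_le_one d) (boxN d n) ≤ armEx (pc d) (pc_le_one d) d (n + 1) := by
    refine ENNReal.toReal_mono (measure_ne_top _ _) (measure_mono fun ω h => ?_)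
    exact arm_of_esc h
  refine h1.trans (mul_le_mul_of_nonneg_right h2 ?_)
  have h3 : ((pc d : ℝ≥0) : ℝ) ≤ 1 := by exact_mod_cast pc_le_one d
  have h4 : 0 ≤ meanSize (pc d) (pc_le_one d) (boxN d n) :=
    sum_nonneg fun _ _ => ENNReal.toReal_nonneg
  have := mul_nonneg (sub_nonneg.2 h3) h4
  linarith

end Pool.Agent.Results.MP_ed4b48_pr.EscapeProbability
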