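import Pool.Agent.Arm55.Esd

/-!
Lower bounds for the probability that the critical cluster of the origin leaves a finite set, and for
the extrinsic one-arm probability, by the intrinsic distance in infinite clusters.
-/

set_option autoImplicit false
set_option linter.deprecated false

open Finset MeasureTheory Filter Topology
open scoped NNReal ENNReal

namespace Pool.Agent.Results.MP_ed4b48_pr.IICDistance

open Pool.Agent.FPP38 Pool.Agent.Arm55

variable {d : ℕ}

theorem esc_dist {q : ℝ≥0} (hq : q ≤ 1) (hpq : pc d < q) (Λ : Finset (Fin d → ℤ)) :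
    PB (Fin d → ℤ) q hq (infiniteCluster d) ≤ PB (Fin d → ℤ) q hq (escEvent Λ) *
      (PB (Fin d → ℤ) q hq (infiniteCluster d) + ENNReal.ofReal (1 - q) *
        ∫⁻ ω in infiniteCluster d, distOut Λ ω ∂(PB (Fin d → ℤ) q hq)) := by
  obtain ⟨m, hm⟩ := exists_box Λ
  have h1 : (q : ℝ) ≤ 1 := by exact_mod_cast hq
  have h2 := esc_inf hpq hq hm
  have h3 := esc_le hq (m := m) Λ
  have hD : 0 ≤ DD q hq Λ := sum_nonneg fun _ _ => ENNReal.toReal_nonneg
  have h4 : 0 ≤ (PB (Fin d → ℤ) q hq (infiniteCluster d)).toReal + (1 - (q : ℝ)) * DD q hq Λ :=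
    add_nonneg ENNReal.toReal_nonneg (mul_nonneg (sub_nonneg.2 h1) hD)
  have h5 := h2.trans (mul_le_mul_of_nonneg_right h3 h4)
  have h6 := ENNReal.ofReal_le_ofReal h5
  have hesc : 0 ≤ escProb q hq Λ := ENNReal.toReal_nonneg
  rw [ENNReal.ofReal_toReal (measure_ne_top _ _), ENNReal.ofReal_mul hesc,
    ENNReal.ofReal_add ENNReal.toReal_nonneg (mul_nonneg (sub_nonneg.2 h1) hD),
    ENNReal.ofReal_mul (sub_nonneg.2 h1), ENNReal.ofReal_toReal (measure_ne_top _ _), escProb,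
    ENNReal.ofReal_toReal (measure_ne_top _ _)] at h6
  refine h6.trans (mul_le_mul_right (add_le_add_right (mul_le_mul_right (DD_le hq) _) _) _)

/-- the intrinsic distance to the sphere, at the critical point -/
theorem esc_limit {n : ℕ} {B : ℝ} (hB0 : 0 ≤ B)
    (hB : ∃ᶠ q : ℝ≥0 in 𝓝[>] (pc d), ∃ hq : q ≤ 1,
      ∫⁻ ω in infiniteCluster d, distOut (boxN d n) ω ∂(PB (Fin d → ℤ) q hq) ≤
        ENNReal.ofReal B * PB (Fin d → ℤ) q hq (infiniteCluster d)) :
    1 ≤ armEx (pc d) (pc_le_one d) d (n + 1) * (1 + (1 - pc d) * B) := by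
  obtain ⟨m, hm⟩ := exists_box (boxN d n)
  have hcont : Continuous (fun q : ℝ≥0 => Pr (q : ℝ) (EB (0 : Fin d → ℤ) (m + 1)) (Xesc (boxN d n)) *
      (1 + (1 - (q : ℝ)) * B)) := by
    have h1 := (continuous_Pr (EB (0 : Fin d → ℤ) (m + 1)) (Xesc (boxN d n))).comp
      NNReal.continuous_coe
    exact h1.mul (by fun_prop)
  have hfr : ∃ᶠ q : ℝ≥0 in 𝓝[>] (pc d), 1 ≤ Pr (q : ℝ) (EB (0 : Fin d → ℤ) (m + 1))
      (Xesc (boxN d n)) * (1 + (1 - (q : ℝ)) * B) := by
    refine (hB.and_eventually self_mem_nhdsWithin).mono ?_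
    rintro q ⟨⟨hq, h⟩, hpq⟩
    have h1 : (q : ℝ) ≤ 1 := by exact_mod_cast hq
    have h2 := esc_inf hpq hq hm
    obtain ⟨c, hc, hcN⟩ := arm_pos hpq hq
    have hθ0 : 0 < (PB (Fin d → ℤ) q hq (infiniteCluster d)).toReal :=
      lt_of_lt_of_le hc (ge_of_tendsto' (tendsto_arm (d := d) hq) hcN)
    have h3 := (DD_le (Λ := boxN d n) hq).trans h
    have h4 : DD q hq (boxN d n) ≤ B * (PB (Fin d → ℤ) q hq (infiniteCluster d)).toReal := by
      rw [← ENNReal.ofReal_toReal (measure_ne_top (PB (Fin d → ℤ) q hq) (infiniteCluster d)),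
        ← ENNReal.ofReal_mul hB0] at h3
      exact (ENNReal.ofReal_le_ofReal_iff (by positivity)).1 h3
    have hP : 0 ≤ Pr (q : ℝ) (EB (0 : Fin d → ℤ) (m + 1)) (Xesc (boxN d n)) :=
      Pr_nonneg q.coe_nonneg h1 _ _
    set θ := (PB (Fin d → ℤ) q hq (infiniteCluster d)).toReal with hθ
    have h5 : θ ≤ Pr (q : ℝ) (EB (0 : Fin d → ℤ) (m + 1)) (Xesc (boxN d n)) *
        (θ + (1 - q) * (B * θ)) := by
      refine h2.trans (mul_le_mul_of_nonneg_left ?_ hP)
      have := mul_le_mul_of_nonneg_left h4 (sub_nonneg.2 h1)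
      linarith
    have h6 : θ * 1 ≤ θ * (Pr (q : ℝ) (EB (0 : Fin d → ℤ) (m + 1)) (Xesc (boxN d n)) *
        (1 + (1 - q) * B)) := by
      rw [mul_one]
      refine h5.trans (le_of_eq ?_)
      ring
    exact le_of_mul_le_mul_left h6 hθ0
  have h7 : 1 ≤ Pr ((pc d : ℝ≥0) : ℝ) (EB (0 : Fin d → ℤ) (m + 1)) (Xesc (boxN d n)) *
      (1 + (1 - ((pc d : ℝ≥0) : ℝ)) * B) := by
    by_contra hlt
    push Not at hlt
    have h8 := (hcont.continuousAt (x := pc d)).eventually_lt continuousAt_const hlt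
    exact hfr ((h8.filter_mono nhdsWithin_le_nhds).mono fun q hq => not_le.2 hq)
  have h1 : ((pc d : ℝ≥0) : ℝ) ≤ 1 := by exact_mod_cast pc_le_one d
  have h9 : 0 ≤ 1 + (1 - ((pc d : ℝ≥0) : ℝ)) * B := by
    have := mul_nonneg (sub_nonneg.2 h1) hB0
    linarith
  refine h7.trans (mul_le_mul_of_nonneg_right ?_ h9)
  refine (esc_le (pc_le_one d) (m := m) (boxN d n)).trans ?_
  exact ENNReal.toReal_mono (measure_ne_top _ _) (measure_mono fun ω h => arm_of_esc h)

/-- Bernoulli bond percolation on `ℤ^d`. Let `D` be the intrinsic distance from the origin to the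
complement of the finite set `Λ`.
(1) For `p_c < q ≤ 1` the probability that the cluster of the origin leaves `Λ` is at least
`1 / (1 + (1 - q) * E[D | the cluster of the origin is infinite])`.
(2) If, for `Λ` the box of radius `n` and for `q > p_c` arbitrarily close to `p_c`, this conditional
expectation is at most `B`, then at `p_c` the origin is joined to the boundary of the box of radius
`n + 1` with probability at least `1 / (1 + (1 - p_c) * B)`. -/
theorem result (d : ℕ) :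
    (∀ (q : ℝ≥0) (hq : q ≤ 1), pc d < q → ∀ Λ : Finset (Fin d → ℤ),
      PB (Fin d → ℤ) q hq (infiniteCluster d) ≤ PB (Fin d → ℤ) q hq (escEvent Λ) *
        (PB (Fin d → ℤ) q hq (infiniteCluster d) + ENNReal.ofReal (1 - q) *
          ∫⁻ ω in infiniteCluster d, distOut Λ ω ∂(PB (Fin d → ℤ) q hq))) ∧
    (∀ (n : ℕ) (B : ℝ), 0 ≤ B →
      (∃ᶠ q : ℝ≥0 in 𝓝[>] (pc d), ∃ hq : q ≤ 1,
        ∫⁻ ω in infiniteCluster d, distOut (boxN d n) ω ∂(PB (Fin d → ℤ) q hq) ≤
          ENNReal.ofReal B * PB (Fin d → ℤ) q hq (infiniteCluster d)) →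
      1 ≤ armEx (pc d) (pc_le_one d) d (n + 1) * (1 + (1 - pc d) * B)) :=
  ⟨fun _ hq hpq Λ => esc_dist hq hpq Λ, fun _ _ hB0 hB => esc_limit hB0 hB⟩

end Pool.Agent.Results.MP_ed4b48_pr.IICDistance
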